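import Pool.Agent.H94.CB.M07

/-!
# Bir Map: composition of holomorphic maps with rational maps

* `exists_comp`: the composition of a holomorphic map `f` into `ℙ^M` with the rational map given by forms `γ i` of the same degree, not all of them
  zero on `f`, is holomorphic: near every point divide the functions `γ i (φ z)` by their common zeros.
* `pn_identity`: the identity theorem for maps into projective space.
-/

set_option autoImplicit false

open Topology Filter Metric MvPolynomial

noncomputable section

namespace Pool.Agent.H7.Bir

open Pool.Agent.H17 (PN VanishesAt HolomorphicInto)

variable {N M : ℕ}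

/-- The values of the forms `γ i` at `x`. -/
def vals (γ : Fin (N + 1) → MvPolynomial (Fin (M + 1)) ℂ) (x : Fin (M + 1) → ℂ) : Fin (N + 1) → ℂ := fun i => eval x (γ i)

/-- The rational map given by the forms `γ i` (arbitrary value where it is not defined). -/
def rmap (γ : Fin (N + 1) → MvPolynomial (Fin (M + 1)) ℂ) (x : PN M) : PN N :=
  open Classical in
  if h : vals γ x.rep ≠ 0 then Projectivization.mk ℂ _ h
  else Projectivization.mk ℂ (fun _ => 1) fun h => one_ne_zero (congrFun h 0)

end Pool.Agent.H7.Bir
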